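import Pool.Agent.H84.DPC.Stmts

/-!
# The double plateau, part (alpha): the integer levels exist

Floors of the numbers of the zone, for large `J`.
-/

set_option autoImplicit false

namespace Pool.S6C

theorem floor_le_max (x : ℝ) : ((⌊x⌋₊ : ℕ) : ℝ) ≤ max 0 x := by
  rcases le_total 0 x with h | h
  · exact (Nat.floor_le h).trans (le_max_right _ _)
  · rw [Nat.floor_of_nonpos h]
    simp

theorem sub_one_le_floor (x : ℝ) : x - 1 ≤ ((⌊x⌋₊ : ℕ) : ℝ) := (Nat.sub_one_lt_floor x).le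

/-- **The integer levels exist.** -/
theorem dlv_thm : DLvStmt := by
  intro σ act rc v₁ t e₁ P g wr v₀ a₀ α pe L e G hL hZ N M x u₀ hx hNM hul huw
  have he := hZ.e0
  have heL := hZ.eL
  have hLG := hZ.LG
  have h8 := hZ.g8
  have h9 := hZ.g9
  obtain ⟨J₁, hJ₁⟩ := exists_nat_ge (max (1 / x) (max (100 / L) (1 / e)))
  refine ⟨J₁, fun J hJ => ?_⟩
  have hJr : (J₁ : ℝ) ≤ J := by exact_mod_cast hJ
  have hJ0 : (0 : ℝ) ≤ J := Nat.cast_nonneg J
  have hxJ : 1 ≤ x * J := by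
    have h1 : 1 / x ≤ J := (le_max_left _ _).trans (hJ₁.trans hJr)
    rw [div_le_iff₀ hx] at h1
    linarith
  have hLJ : 100 ≤ L * J := by
    have h1 : 100 / L ≤ J :=
      ((le_max_left _ _).trans (le_max_right _ _)).trans (hJ₁.trans hJr)
    rw [div_le_iff₀ hL] at h1
    linarith
  have heJ : 1 ≤ e * J := by
    have h1 : 1 / e ≤ J :=
      ((le_max_right _ _).trans (le_max_right _ _)).trans (hJ₁.trans hJr)
    rw [div_le_iff₀ he] at h1
    linarith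
  have heLJ : 100 * (e * J) ≤ L * J := by nlinarith
  have hwr : 0 ≤ wr * J := mul_nonneg (by linarith) hJ0
  have hPg : 0 ≤ (P - g) * J := mul_nonneg (by linarith) hJ0
  have hX1 : x * J ≤ (⌈x * J⌉₊ : ℝ) := Nat.le_ceil _
  have hX2 : (⌈x * J⌉₊ : ℝ) ≤ 2 * x * J := by
    have := (Nat.ceil_lt_add_one (by linarith : (0 : ℝ) ≤ x * J)).le
    linarith
  have hX0 : (0 : ℝ) ≤ (⌈x * J⌉₊ : ℝ) := Nat.cast_nonneg _
  have hN0 : (0 : ℝ) ≤ N := Nat.cast_nonneg N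
  have hM0 : (0 : ℝ) ≤ M := Nat.cast_nonneg M
  have hxJ0 : 0 ≤ x * J := by linarith
  have hNX : ((N : ℝ) + 2) * (⌈x * J⌉₊ : ℝ) ≤ L / 4 * J := by
    have h1 : ((N : ℝ) + 2) * (⌈x * J⌉₊ : ℝ) ≤ ((N : ℝ) + 2) * (2 * x * J) :=
      mul_le_mul_of_nonneg_left hX2 (by linarith)
    have h2 : ((N : ℝ) + 2) * (2 * x) ≤ L / 4 := by nlinarith [mul_nonneg hM0 hx.le]
    have h3 := mul_le_mul_of_nonneg_right h2 hJ0
    nlinarith
  have hMX : ((M : ℝ) + 2) * (⌈x * J⌉₊ : ℝ) ≤ L / 4 * J := by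
    have h1 : ((M : ℝ) + 2) * (⌈x * J⌉₊ : ℝ) ≤ ((M : ℝ) + 2) * (2 * x * J) :=
      mul_le_mul_of_nonneg_left hX2 (by linarith)
    have h2 : ((M : ℝ) + 2) * (2 * x) ≤ L / 4 := by nlinarith [mul_nonneg hN0 hx.le]
    have h3 := mul_le_mul_of_nonneg_right h2 hJ0
    nlinarith
  refine ⟨⌊wr * J⌋₊, ⌊(P - g) * J⌋₊, ⌊(v₀ - 10 * e) * J⌋₊, ⌊(g - wr - v₀ - 10 * e) * J⌋₊,
    ⌈x * J⌉₊, hX1, hX2, hul, ?_, ?_, ?_, ?_, floor_le_max _, ?_, floor_le_max _, ?_⟩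
  · have h1 := sub_one_le_floor (wr * J)
    have h2 : ((u₀ : ℝ) + L / 16) * J ≤ wr * J := mul_le_mul_of_nonneg_right huw hJ0
    nlinarith
  · push_cast
    have h1 := Nat.floor_le hwr
    nlinarith
  · have h1 := sub_one_le_floor ((P - g) * J)
    nlinarith
  · push_cast
    have h1 := Nat.floor_le hPg
    nlinarith
  · have h1 := sub_one_le_floor ((v₀ - 10 * e) * J)
    nlinarith
  · have h1 := sub_one_le_floor ((g - wr - v₀ - 10 * e) * J)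
    nlinarith

end Pool.S6C
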